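import Mathlib

/-!
Triangular covering maps do not respect the relation `k^n G ≅ G`: a tower of two triangular
double coverings `G2 → G1 → G0` of finite connected graphs on 32, 16 and 8 vertices such that,
for every odd `n`, `k^n G0 ≅ G0` and `k^n G2 ≅ G2`, while `k^n G1 ≇ G1`.
-/

namespace Pool.Agent.Results.MP_3c8d56_co.SelfDualTower

/-- A graph together with its vertex type. -/
structure Graph where
  V : Type
  G : SimpleGraph V

/-- The cliques of `G`: the inclusion-maximal complete sets of vertices. -/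
def Clq {V : Type} (G : SimpleGraph V) : Type := {s : Set V // Maximal (fun t : Set V => G.IsClique t) s}

/-- The clique graph `kG`: two distinct cliques are adjacent when they share a vertex. -/
def cliqueGraph {V : Type} (G : SimpleGraph V) : SimpleGraph (Clq G) where
  Adj a b := a ≠ b ∧ (a.1 ∩ b.1).Nonempty
  symm := ⟨fun a b h => ⟨h.1.symm, by rw [Set.inter_comm]; exact h.2⟩⟩
  loopless := ⟨fun _ h => h.1 rfl⟩

/-- The clique operator. -/
def k (X : Graph) : Graph := ⟨Clq X.G, cliqueGraph X.G⟩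

/-- Two graphs are isomorphic. -/
def Isom (X Y : Graph) : Prop := Nonempty (X.G ≃g Y.G)

/-- The closed neighbourhood of a vertex. -/
def closedNbhd {V : Type} (G : SimpleGraph V) (v : V) : Set V := {w | w = v ∨ G.Adj v w}

/-- `p` is a triangular covering map from `X` to `Y`: both graphs are connected, `p` is a graph
homomorphism and the restriction of `p` to each closed neighbourhood `N[v]` is an isomorphism
onto `N[p v]`. -/
structure IsTriangularCovering (X Y : Graph) (p : X.V → Y.V) : Prop where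
  connX : X.G.Connected
  connY : Y.G.Connected
  hom : ∀ a b, X.G.Adj a b → Y.G.Adj (p a) (p b)
  bij : ∀ v, Set.BijOn p (closedNbhd X.G v) (closedNbhd Y.G (p v))
  adj : ∀ v, ∀ a ∈ closedNbhd X.G v, ∀ b ∈ closedNbhd X.G v,
    (X.G.Adj a b ↔ Y.G.Adj (p a) (p b))

/-! ### isomorphism invariance -/

lemma Isom.refl (X : Graph) : Isom X X := ⟨SimpleGraph.Iso.refl⟩
lemma Isom.symm {X Y : Graph} (h : Isom X Y) : Isom Y X := h.elim fun e => ⟨e.symm⟩
lemma Isom.trans {X Y Z : Graph} (h : Isom X Y) (h' : Isom Y Z) : Isom X Z :=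
  h.elim fun e => h'.elim fun e' => ⟨e'.comp e⟩

/-! ### incidence structures -/

/-- The collinearity graph of an incidence relation between lines `ι` and points `α`. -/
def coll {ι α : Type} (inc : ι → α → Prop) : SimpleGraph α where
  Adj u v := u ≠ v ∧ ∃ i, inc i u ∧ inc i v
  symm := ⟨fun _ _ h => ⟨h.1.symm, h.2.elim fun i hi => ⟨i, hi.2, hi.1⟩⟩⟩
  loopless := ⟨fun _ h => h.1 rfl⟩

/-- A partial linear space without triangles, in which all lines have at least two points. -/
structure Good {ι α : Type} (inc : ι → α → Prop) : Prop where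
  two : ∀ i, ∃ u, inc i u ∧ ∃ v, inc i v ∧ u ≠ v
  pt : ∀ u, ∃ i, inc i u
  lin : ∀ i j, i ≠ j → ∀ u, inc i u → inc j u → ∀ v, inc i v → inc j v → u = v
  tri : ∀ i j, i ≠ j → ∀ u, inc i u → inc j u → ∀ v, inc i v → v ≠ u → ∀ w, inc j w →
    w ≠ u → ∀ l, inc l v → ¬ inc l w

lemma Good.clique_sub {ι α : Type} {inc : ι → α → Prop} (h : Good inc) (s : Set α)
    (hs : (coll inc).IsClique s) (i : ι) (u v : α) (hu : inc i u) (hv : inc i v) (huv : u ≠ v)
    (hus : u ∈ s) (hvs : v ∈ s) : ∀ w ∈ s, inc i w := by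
  intro w hw
  by_contra hiw
  have hwu : w ≠ u := fun e => hiw (e ▸ hu)
  have hwv : w ≠ v := fun e => hiw (e ▸ hv)
  obtain ⟨-, j, hj1, hj2⟩ := hs hus hw hwu.symm
  obtain ⟨-, l, hl1, hl2⟩ := hs hvs hw hwv.symm
  have hij : i ≠ j := fun e => hiw (e ▸ hj2)
  exact h.tri i j hij u hu hj1 v hv huv.symm w hj2 hwu l hl1 hl2

lemma Good.line_clique {ι α : Type} {inc : ι → α → Prop} (i : ι) :
    (coll inc).IsClique {u | inc i u} := by
  intro u hu v hv huv
  exact ⟨huv, i, hu, hv⟩

lemma Good.line_max {ι α : Type} {inc : ι → α → Prop} (h : Good inc) (i : ι) :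
    Maximal (fun t : Set α => (coll inc).IsClique t) {u | inc i u} := by
  refine ⟨Good.line_clique i, ?_⟩
  intro t ht hle w hw
  obtain ⟨u, hu, v, hv, huv⟩ := h.two i
  exact h.clique_sub t ht i u v hu hv huv (hle hu) (hle hv) w hw

lemma Good.max_line {ι α : Type} {inc : ι → α → Prop} (h : Good inc) [Nonempty α] (s : Set α)
    (hs : Maximal (fun t : Set α => (coll inc).IsClique t) s) : ∃ i, s = {u | inc i u} := by
  have key : ∃ i, ∀ w ∈ s, inc i w := by
    by_cases h2 : ∃ u ∈ s, ∃ v ∈ s, u ≠ v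
    · obtain ⟨u, hu, v, hv, huv⟩ := h2
      obtain ⟨-, i, hi1, hi2⟩ := hs.1 hu hv huv
      exact ⟨i, h.clique_sub s hs.1 i u v hi1 hi2 huv hu hv⟩
    · push Not at h2
      by_cases h1 : s.Nonempty
      · obtain ⟨u, hu⟩ := h1
        obtain ⟨i, hi⟩ := h.pt u
        refine ⟨i, fun w hw => ?_⟩
        rw [← h2 u hu w hw]; exact hi
      · obtain ⟨u⟩ := ‹Nonempty α›
        obtain ⟨i, hi⟩ := h.pt u
        exact ⟨i, fun w hw => absurd ⟨w, hw⟩ h1⟩
  obtain ⟨i, hi⟩ := key
  refine ⟨i, Set.Subset.antisymm hi ?_⟩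
  exact hs.2 (Good.line_clique i) hi

lemma Good.line_inj {ι α : Type} {inc : ι → α → Prop} (h : Good inc) {i j : ι}
    (e : {u | inc i u} = {u | inc j u}) : i = j := by
  by_contra hij
  obtain ⟨u, hu, v, hv, huv⟩ := h.two i
  have hu' : inc j u := by
    have : u ∈ {u | inc i u} := hu
    rw [e] at this; exact this
  have hv' : inc j v := by
    have : v ∈ {u | inc i u} := hv
    rw [e] at this; exact this
  exact huv (h.lin i j hij u hu hu' v hv hv')

/-- The clique graph of the collinearity graph is the collinearity graph of the dual. -/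
lemma Good.k_coll {ι α : Type} {inc : ι → α → Prop} (h : Good inc) [Nonempty α] :
    Isom (k ⟨α, coll inc⟩) ⟨ι, coll (fun u i => inc i u)⟩ := by
  let f : ι → Clq (coll inc) := fun i => ⟨{u | inc i u}, h.line_max i⟩
  have hf : Function.Bijective f := by
    constructor
    · intro i j e
      exact h.line_inj (congrArg Subtype.val e)
    · rintro ⟨s, hs⟩
      obtain ⟨i, hi⟩ := h.max_line s hs
      exact ⟨i, Subtype.ext hi.symm⟩
  refine Isom.symm ⟨⟨Equiv.ofBijective f hf, ?_⟩⟩
  intro i j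
  change (f i ≠ f j ∧ ((f i).1 ∩ (f j).1).Nonempty) ↔ (i ≠ j ∧ ∃ u, inc i u ∧ inc j u)
  rw [hf.1.ne_iff]
  rfl

/-- The clique operator respects isomorphism. -/
lemma k_congr {X Y : Graph} (h : Isom X Y) : Isom (k X) (k Y) := by
  obtain ⟨e⟩ := h
  have hcl : ∀ (A B : Graph) (e : A.G ≃g B.G) (s : Set A.V), A.G.IsClique s →
      B.G.IsClique (e.symm ⁻¹' s) := by
    intro A B e s hs u hu v hv huv
    have := hs hu hv (fun h => huv (e.symm.injective h))
    exact e.symm.map_adj_iff.1 this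
  have hmax : ∀ (A B : Graph) (e : A.G ≃g B.G) (s : Set A.V),
      Maximal (fun t : Set A.V => A.G.IsClique t) s →
      Maximal (fun t : Set B.V => B.G.IsClique t) (e.symm ⁻¹' s) := by
    intro A B e s hs
    refine ⟨hcl A B e s hs.1, ?_⟩
    intro t ht hle
    have h1 : A.G.IsClique (e ⁻¹' t) := by
      have := hcl B A e.symm t ht
      exact this
    have h2 : s ≤ e ⁻¹' t := by
      intro a ha
      apply hle
      change e.symm (e a) ∈ s
      rw [e.symm_apply_apply]; exact ha
    have h3 := hs.2 h1 h2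
    intro b hb
    change e.symm b ∈ s
    apply h3
    change e (e.symm b) ∈ t
    rw [e.apply_symm_apply]; exact hb
  refine ⟨⟨⟨fun s => ⟨e.symm ⁻¹' s.1, hmax X Y e s.1 s.2⟩,
    fun t => ⟨e ⁻¹' t.1, hmax Y X e.symm t.1 t.2⟩, ?_, ?_⟩, ?_⟩⟩
  · rintro ⟨s, hs⟩
    apply Subtype.ext
    ext a
    change e.symm (e a) ∈ s ↔ a ∈ s
    rw [e.symm_apply_apply]
  · rintro ⟨s, hs⟩
    apply Subtype.ext
    ext a
    change e (e.symm a) ∈ s ↔ a ∈ s
    rw [e.apply_symm_apply]
  · rintro ⟨s, hs⟩ ⟨t, ht⟩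
    change ((⟨e.symm ⁻¹' s, _⟩ : Clq Y.G) ≠ ⟨e.symm ⁻¹' t, _⟩ ∧
      ((e.symm ⁻¹' s) ∩ (e.symm ⁻¹' t)).Nonempty) ↔
      ((⟨s, hs⟩ : Clq X.G) ≠ ⟨t, ht⟩ ∧ (s ∩ t).Nonempty)
    have hinj : (e.symm ⁻¹' s = e.symm ⁻¹' t) ↔ s = t := by
      constructor
      · intro h
        ext a
        have : e a ∈ e.symm ⁻¹' s ↔ e a ∈ e.symm ⁻¹' t := by rw [h]
        change e.symm (e a) ∈ s ↔ e.symm (e a) ∈ t at this
        rw [e.symm_apply_apply] at this
        exact this
      · rintro rfl; rfl
    apply and_congr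
    · apply not_congr
      constructor
      · intro h
        exact Subtype.ext (hinj.1 (congrArg Subtype.val h))
      · intro h
        exact Subtype.ext (hinj.2 (congrArg Subtype.val h))
    · constructor
      · rintro ⟨b, hb1, hb2⟩
        exact ⟨e.symm b, hb1, hb2⟩
      · rintro ⟨a, ha1, ha2⟩
        refine ⟨e a, ?_, ?_⟩
        · change e.symm (e a) ∈ s
          rw [e.symm_apply_apply]; exact ha1
        · change e.symm (e a) ∈ t
          rw [e.symm_apply_apply]; exact ha2

/-- If `inc` and its dual are good, the iterated clique graphs alternate. -/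
lemma iter_coll {ι α : Type} {inc : ι → α → Prop} (h : Good inc)
    (h' : Good (fun u i => inc i u)) [Nonempty α] [Nonempty ι] (m : ℕ) :
    Isom (k^[2 * m] ⟨α, coll inc⟩) ⟨α, coll inc⟩ ∧
    Isom (k^[2 * m + 1] ⟨α, coll inc⟩) ⟨ι, coll (fun u i => inc i u)⟩ := by
  induction m with
  | zero => exact ⟨Isom.refl _, h.k_coll⟩
  | succ m ih =>
    have h1 : Isom (k^[2 * (m + 1)] ⟨α, coll inc⟩) ⟨α, coll inc⟩ := by
      rw [show 2 * (m + 1) = (2 * m + 1) + 1 by ring, Function.iterate_succ_apply']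
      exact (k_congr ih.2).trans h'.k_coll
    refine ⟨h1, ?_⟩
    rw [Function.iterate_succ_apply']
    exact (k_congr h1).trans h.k_coll

/-! ### the three incidence structures -/

/-- Incidence of the base structure with voltages: lines `0..7`, points `0..7`. -/
def base (i u : ℕ) : Bool :=
  (i == 0 && (u == 0 || u == 1)) || (i == 1 && (u == 1 || u == 2)) ||
  (i == 2 && (u == 2 || u == 3)) || (i == 3 && (u == 3 || u == 0)) ||
  (i == 4 && (u == 0 || u == 4 || u == 7)) || (i == 5 && (u == 4 || u == 5)) ||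
  (i == 6 && (u == 5 || u == 6)) || (i == 7 && (u == 6 || u == 7))

/-- Incidences on 8 lines and 8 points. -/
def inc0 (i u : Fin 8) : Prop := base i.1 u.1 = true

/-- Incidences on 16 lines and 16 points: the incidence of line 4 with point 7 has voltage 1. -/
def inc1 (i u : Fin 16) : Prop :=
  (base (i.1 % 8) (u.1 % 8) &&
    (u.1 / 8 == Nat.xor (i.1 / 8) (if i.1 % 8 == 4 && u.1 % 8 == 7 then 1 else 0))) = true

/-- Incidences on 32 lines and 32 points: the incidence of line 4 with point 7 has voltage 2,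
that of line 3 with point 0 has voltage 1. -/
def inc2 (i u : Fin 32) : Prop :=
  (base (i.1 % 8) (u.1 % 8) &&
    (u.1 / 8 == Nat.xor (i.1 / 8) (if i.1 % 8 == 4 && u.1 % 8 == 7 then 2 else
      if i.1 % 8 == 3 && u.1 % 8 == 0 then 1 else 0))) = true

instance : ∀ i u, Decidable (inc0 i u) := fun i u => by unfold inc0; infer_instance
instance : ∀ i u, Decidable (inc1 i u) := fun i u => by unfold inc1; infer_instance
instance : ∀ i u, Decidable (inc2 i u) := fun i u => by unfold inc2; infer_instance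

instance {ι α : Type} [Fintype ι] [DecidableEq α] (inc : ι → α → Prop) [∀ i u, Decidable (inc i u)] :
    DecidableRel (coll inc).Adj := fun u v => by
  change Decidable (u ≠ v ∧ ∃ i, inc i u ∧ inc i v)
  infer_instance

lemma good0 : Good inc0 := by
  constructor
  · decide +kernel
  · decide +kernel
  · decide +kernel
  · decide +kernel

lemma good1 : Good inc1 := by
  constructor
  · decide +kernel
  · decide +kernel
  · decide +kernel
  · decide +kernel

lemma good2 : Good inc2 := by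
  constructor
  · decide +kernel
  · decide +kernel
  · decide +kernel
  · decide +kernel


lemma Good.lin_unique {ι α : Type} {inc : ι → α → Prop} (h : Good inc) {u v : α} (huv : u ≠ v)
    {i j : ι} (hiu : inc i u) (hiv : inc i v) (hju : inc j u) (hjv : inc j v) : i = j := by
  by_contra hij
  exact huv (h.lin i j hij u hiu hju v hiv hjv)

lemma Good.dual {ι α : Type} {inc : ι → α → Prop} (h : Good inc)
    (h2 : ∀ u, ∃ i, inc i u ∧ ∃ j, inc j u ∧ i ≠ j) : Good (fun u i => inc i u) := by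
  constructor
  · exact h2
  · intro i
    obtain ⟨u, hu, -⟩ := h.two i
    exact ⟨u, hu⟩
  · intro u v huv i hiu hiv j hju hjv
    by_contra hij
    exact huv (h.lin i j hij u hiu hju v hiv hjv)
  · intro u v huv i hiu hiv j hju hji l hlv hli w hjw hlw
    -- points u, v, w; lines i (through u, v), j (through u, w), l (through v, w)
    by_cases huw : w = u
    · subst huw
      exact hli.symm (h.lin_unique huv hiu hiv hlw hlv)
    · by_cases hvw : w = v
      · subst hvw
        exact hji.symm (h.lin_unique huv hiu hiv hju hjw)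
      · exact h.tri i j hji.symm u hiu hju v hiv huv.symm w hjw huw l hlv hlw

lemma dual0 : Good (fun u i => inc0 i u) := good0.dual (by decide +kernel)
lemma dual1 : Good (fun u i => inc1 i u) := good1.dual (by decide +kernel)
lemma dual2 : Good (fun u i => inc2 i u) := good2.dual (by decide +kernel)

/-! ### the graphs -/

/-- The graph on 8 vertices. -/
def G0 : SimpleGraph (Fin 8) := coll inc0
/-- The graph on 16 vertices. -/
def G1 : SimpleGraph (Fin 16) := coll inc1
/-- The graph on 32 vertices. -/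
def G2 : SimpleGraph (Fin 32) := coll inc2
/-- The dual of `G1`. -/
def H1 : SimpleGraph (Fin 16) := coll (fun u i => inc1 i u)

instance : DecidableRel G0.Adj := by unfold G0; infer_instance
instance : DecidableRel G1.Adj := by unfold G1; infer_instance
instance : DecidableRel G2.Adj := by unfold G2; infer_instance
instance : DecidableRel H1.Adj := by
  unfold H1
  haveI : ∀ u i, Decidable ((fun u i => inc1 i u) u i) := fun u i => by
    change Decidable (inc1 i u); infer_instance
  infer_instance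

lemma connected_of {V : Type} (G : SimpleGraph V) (r : V) (f : V → V) (m : ℕ)
    (h : ∀ v, v = f v ∨ G.Adj v (f v)) (hr : ∀ v, f^[m] v = r) : G.Connected := by
  have key : ∀ m v, G.Reachable v (f^[m] v) := by
    intro m
    induction m with
    | zero => intro v; exact SimpleGraph.Reachable.refl _
    | succ m ih =>
      intro v
      rw [Function.iterate_succ_apply]
      refine SimpleGraph.Reachable.trans ?_ (ih (f v))
      rcases h v with h | h
      · rw [← h]
      · exact h.reachable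
  have : Nonempty V := ⟨r⟩
  refine SimpleGraph.Connected.mk ?_
  intro u v
  have hu := key m u
  have hv := key m v
  rw [hr] at hu hv
  exact hu.trans hv.symm

lemma conn0 : G0.Connected :=
  connected_of G0 0 ![0, 0, 1, 0, 0, 4, 7, 0] 2 (by decide +kernel) (by decide +kernel)

lemma conn1 : G1.Connected :=
  connected_of G1 0 ![0, 0, 1, 0, 0, 4, 5, 6, 7, 8, 9, 8, 13, 14, 15, 0] 7
    (by decide +kernel) (by decide +kernel)

lemma conn2 : G2.Connected :=
  connected_of G2 0 ![0, 0, 1, 2, 0, 4, 5, 6, 3, 10, 11, 0, 8, 12, 13, 14, 7, 16, 17, 18, 21, 22,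
    23, 0, 15, 26, 27, 16, 29, 30, 31, 8] 9 (by decide +kernel) (by decide +kernel)

/-- The covering map `G1 → G0`. -/
def p (v : Fin 16) : Fin 8 := ⟨v.1 % 8, Nat.mod_lt _ (by norm_num)⟩

/-- The covering map `G2 → G1`. -/
def q (v : Fin 32) : Fin 16 := ⟨v.1 % 8 + 8 * (v.1 / 16), by have := v.2; omega⟩

lemma cover_of {V W : Type} (G : SimpleGraph V) (H : SimpleGraph W) (p : V → W)
    (hG : G.Connected) (hH : H.Connected)
    (hom : ∀ a b, G.Adj a b → H.Adj (p a) (p b))
    (surj : ∀ v w, H.Adj (p v) w → ∃ a, G.Adj v a ∧ p a = w)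
    (inj : ∀ v a, G.Adj v a → ∀ b, G.Adj v b → p a = p b → a = b)
    (adj : ∀ v a, G.Adj v a → ∀ b, G.Adj v b → H.Adj (p a) (p b) → G.Adj a b) :
    IsTriangularCovering ⟨V, G⟩ ⟨W, H⟩ p := by
  refine ⟨hG, hH, hom, ?_, ?_⟩
  · intro v
    refine ⟨?_, ?_, ?_⟩
    · rintro w (rfl | hw)
      · exact Or.inl rfl
      · exact Or.inr (hom _ _ hw)
    · rintro a (rfl | ha) b (rfl | hb) hab
      · rfl
      · exact absurd hab (hom _ _ hb).ne
      · exact absurd hab.symm (hom _ _ ha).ne
      · exact inj v a ha b hb hab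
    · rintro w (rfl | hw)
      · exact ⟨v, Or.inl rfl, rfl⟩
      · obtain ⟨a, ha, haw⟩ := surj v w hw
        exact ⟨a, Or.inr ha, haw⟩
  · intro v a ha b hb
    refine ⟨hom a b, ?_⟩
    intro hab
    rcases ha with rfl | ha
    · rcases hb with rfl | hb
      · exact absurd rfl hab.ne
      · exact hb
    · rcases hb with rfl | hb
      · exact ha.symm
      · exact adj v a ha b hb hab

lemma cover1 : IsTriangularCovering ⟨_, G1⟩ ⟨_, G0⟩ p :=
  cover_of G1 G0 p conn1 conn0 (by decide +kernel) (by decide +kernel) (by decide +kernel)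
    (by decide +kernel)

lemma cover2 : IsTriangularCovering ⟨_, G2⟩ ⟨_, G1⟩ q :=
  cover_of G2 G1 q conn2 conn1 (by decide +kernel) (by decide +kernel) (by decide +kernel)
    (by decide +kernel)

/-! ### self-duality of `G0` and `G2` -/

lemma dual_iso {α : Type} (inc : α → α → Prop) (f : α → α) (hf : ∀ v, f (f v) = v)
    (h : ∀ i u, inc i u → inc (f u) (f i)) :
    Isom ⟨α, coll (fun u i => inc i u)⟩ ⟨α, coll inc⟩ := by
  refine ⟨⟨⟨f, f, hf, hf⟩, ?_⟩⟩
  intro i j
  change (f i ≠ f j ∧ ∃ l, inc l (f i) ∧ inc l (f j)) ↔ (i ≠ j ∧ ∃ u, inc i u ∧ inc j u)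
  apply and_congr
  · apply not_congr
    constructor
    · intro e
      rw [← hf i, ← hf j, e]
    · rintro rfl; rfl
  · constructor
    · rintro ⟨l, h1, h2⟩
      refine ⟨f l, ?_, ?_⟩
      · have := h _ _ h1
        rw [hf] at this; exact this
      · have := h _ _ h2
        rw [hf] at this; exact this
    · rintro ⟨u, h1, h2⟩
      exact ⟨f u, h _ _ h1, h _ _ h2⟩

/-- The duality of `inc0`. -/
def s0 (v : Fin 8) : Fin 8 := ⟨(v.1 + 4) % 8, Nat.mod_lt _ (by norm_num)⟩

/-- The duality of `inc2`. -/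
def s2 (v : Fin 32) : Fin 32 :=
  ⟨((v.1 % 8 + 4) % 8) + 8 * (v.1 / 16 + 2 * ((v.1 / 8) % 2)), by have := v.2; omega⟩

lemma self0 : Isom ⟨_, coll (fun u i => inc0 i u)⟩ ⟨_, coll inc0⟩ :=
  dual_iso inc0 s0 (by decide +kernel) (by decide +kernel)

lemma self2 : Isom ⟨_, coll (fun u i => inc2 i u)⟩ ⟨_, coll inc2⟩ :=
  dual_iso inc2 s2 (by decide +kernel) (by decide +kernel)

/-! ### `G1` is not isomorphic to its dual -/

/-- A vertex of degree at least four in an induced cycle of length four. -/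
def Phi {V : Type} (G : SimpleGraph V) : Prop :=
  ∃ v a, G.Adj v a ∧ ∃ b, G.Adj v b ∧ a ≠ b ∧ ¬ G.Adj a b ∧
    (∃ w, w ≠ v ∧ G.Adj w a ∧ G.Adj w b) ∧
    ∃ c, G.Adj v c ∧ c ≠ a ∧ c ≠ b ∧ ∃ d, G.Adj v d ∧ d ≠ a ∧ d ≠ b ∧ d ≠ c

lemma phi_congr {V W : Type} {G : SimpleGraph V} {H : SimpleGraph W} (e : G ≃g H) (h : Phi G) :
    Phi H := by
  obtain ⟨v, a, hva, b, hvb, hab, hnab, ⟨w, hwv, hwa, hwb⟩, c, hvc, hca, hcb, d, hvd, hda, hdb,
    hdc⟩ := h
  have ne : ∀ {x y : V}, x ≠ y → e x ≠ e y := fun h => fun h' => h (e.injective h')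
  exact ⟨e v, e a, e.map_adj_iff.2 hva, e b, e.map_adj_iff.2 hvb, ne hab,
    fun h => hnab (e.map_adj_iff.1 h), ⟨e w, ne hwv, e.map_adj_iff.2 hwa, e.map_adj_iff.2 hwb⟩,
    e c, e.map_adj_iff.2 hvc, ne hca, ne hcb, e d, e.map_adj_iff.2 hvd, ne hda, ne hdb, ne hdc⟩

instance {n : ℕ} (G : SimpleGraph (Fin n)) [DecidableRel G.Adj] : Decidable (Phi G) := by
  unfold Phi; infer_instance

lemma phi1 : Phi G1 := by decide +kernel
lemma nphi1 : ¬ Phi H1 := by decide +kernel

/-- There are triangular double coverings `G2 → G1 → G0` of finite connected graphs with 32, 16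
and 8 vertices such that, for every odd `n`, `k^n G0 ≅ G0`, `k^n G2 ≅ G2` and `k^n G1 ≇ G1`. -/
theorem result :
    ∃ (G0 : SimpleGraph (Fin 8)) (G1 : SimpleGraph (Fin 16)) (G2 : SimpleGraph (Fin 32))
      (p : Fin 16 → Fin 8) (q : Fin 32 → Fin 16),
      IsTriangularCovering ⟨_, G1⟩ ⟨_, G0⟩ p ∧ IsTriangularCovering ⟨_, G2⟩ ⟨_, G1⟩ q ∧
      ∀ n : ℕ, Odd n → Isom (k^[n] ⟨_, G0⟩) ⟨_, G0⟩ ∧ ¬ Isom (k^[n] ⟨_, G1⟩) ⟨_, G1⟩ ∧
        Isom (k^[n] ⟨_, G2⟩) ⟨_, G2⟩ := by
  refine ⟨G0, G1, G2, p, q, cover1, cover2, ?_⟩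
  rintro n ⟨m, rfl⟩
  refine ⟨?_, ?_, ?_⟩
  · exact ((iter_coll good0 dual0 m).2).trans self0
  · intro h
    obtain ⟨e⟩ := (Isom.symm ((iter_coll good1 dual1 m).2)).trans h
    exact nphi1 (phi_congr e.symm phi1)
  · exact ((iter_coll good2 dual2 m).2).trans self2

end Pool.Agent.Results.MP_3c8d56_co.SelfDualTower
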